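import Pool.Agent.Q145.ART.Stm

set_option autoImplicit false

/-!
# Project ART of helper145: job UPP
-/

namespace Pool.Agent.Q38.ART

open Finset
open Pool.Agent.Q145.ART Pool.Agent.H730R2.AA Pool.Agent.H730R2.AA.Exp

/-- a primitive root is not a square -/
theorem jac_prim {p : ℕ} [hp : Fact p.Prime] (h2 : 2 < p) {a : ℕ} (h : orderOf (a : ZMod p) = p - 1) :
    jacobiSym a p = -1 := by
  have ha : ((a : ℤ) : ZMod p) ≠ 0 := by
    intro h0
    rw [Int.cast_natCast] at h0
    rw [h0, orderOf_zero] at h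
    omega
  have hl : legendreSym p a = jacobiSym a p := jacobiSym.legendreSym.to_jacobiSym p a
  rw [← hl]
  rcases legendreSym.eq_one_or_neg_one p ha with h1 | h1
  · exfalso
    have h3 := legendreSym.eq_pow p (a : ℤ)
    rw [h1, Int.cast_one, Int.cast_natCast] at h3
    have h4 : orderOf (a : ZMod p) ∣ p / 2 := orderOf_dvd_of_pow_eq_one h3.symm
    rw [h] at h4
    have h5 := Nat.le_of_dvd (by omega) h4
    omega
  · exact h1

/-- the sign of the quadratic character for the type `t` -/
noncomputable def sg (t : ℤ) : ℝ := if t = 0 then -1 else t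

theorem sg_abs {t : ℤ} (ht : IsT t) : |sg t| = 1 := by
  unfold sg
  rcases ht with rfl | rfl | rfl
  · norm_num
  · norm_num
  · norm_num

theorem point {p : ℕ} [hp : Fact p.Prime] (h2 : 2 < p) {t : ℤ} (ht : IsT t) (a : ℕ) [Decidable (Ty p t a)] :
    (if Ty p t a then (1 : ℝ) else 0) ≤ (1 + sg t * (jacobiSym a p : ℤ)) / 2 := by
  have htr := jacobiSym.trichotomy (a : ℤ) p
  by_cases h : Ty p t a
  · rw [if_pos h]
    unfold Ty at h
    unfold sg
    by_cases h0 : t = 0
    · rw [if_pos h0] at h ⊢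
      rw [jac_prim h2 h]
      norm_num
    · rw [if_neg h0] at h ⊢
      rw [h]
      rcases ht with rfl | rfl | rfl
      · exact absurd rfl h0
      · norm_num
      · norm_num
  · rw [if_neg h]
    have h1 : |sg t * ((jacobiSym a p : ℤ) : ℝ)| ≤ 1 := by
      rw [abs_mul, sg_abs ht, one_mul]
      rcases htr with h3 | h3 | h3
      · rw [h3]; norm_num
      · rw [h3]; norm_num
      · rw [h3]; norm_num
    have h3 := (abs_le.1 h1).1
    linarith

theorem t_UPP : S_UPP := by
  classical
  intro p E t V hp h2 ht hCB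
  haveI : Fact p.Prime := ⟨hp⟩
  have hq : (qc p).IsPrimitive := by
    refine NT_prim p hp (qc p) ?_
    unfold NT
    simp only [mem_filter, mem_univ, true_and]
    exact qc_ne (by omega)
  have h3 := hCB (qc p) hq
  have h4 : ∑ a ∈ E, qc p (a : ZMod p) = (((∑ a ∈ E, ((jacobiSym a p : ℤ) : ℝ)) : ℝ) : ℂ) := by
    rw [Complex.ofReal_sum]
    refine sum_congr rfl fun a _ => ?_
    have := qc_apply (p := p) (a : ℤ)
    rw [Int.cast_natCast] at this
    rw [this]
    push_cast
    rfl
  rw [h4, Complex.norm_real, Real.norm_eq_abs] at h3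
  have h5 : nT E t p = ∑ a ∈ E, (if Ty p t a then (1 : ℝ) else 0) := by
    unfold nT num
    rw [← sum_filter, sum_const, nsmul_eq_mul, mul_one]
  rw [h5]
  refine (sum_le_sum fun a _ => point h2 ht a).trans ?_
  rw [← sum_div, sum_add_distrib, ← mul_sum, sum_const, nsmul_eq_mul, mul_one]
  have h6 : sg t * ∑ a ∈ E, ((jacobiSym a p : ℤ) : ℝ) ≤ V := by
    refine (le_abs_self _).trans ?_
    rw [abs_mul, sg_abs ht, one_mul]
    exact h3
  linarith

end Pool.Agent.Q38.ART
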